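import Pool.Agent.Helper44.GN.Defs

/-!
# MP_d210aa_gt: module HR1 (the Laplace transform of `S`)
-/

open Finset MeasureTheory Filter Topology Matrix
open scoped ENNReal ContDiff

namespace Pool.Agent.Helper44.GN

open Pool.Agent.Helper44.GF

theorem st_HR1 (hLGI : ST_LGI) (hCAL : ST_CAL) : ST_HR1 := by
  intro n δ ρ S hW hS _ hEn
  obtain ⟨hpos, h1pos, hder⟩ := hLGI n δ ρ S hW hS
  let Λ : ℝ → ℝ := fun t =>
    Real.log (IB δ ρ (fun z => Real.exp (t * S z)) / IB δ ρ (fun _ => 1))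
  let Λ' : ℝ → ℝ := fun t =>
    IB δ ρ (fun z => S z * Real.exp (t * S z)) / IB δ ρ (fun z => Real.exp (t * S z))
  have hd : ∀ t, HasDerivAt Λ (Λ' t) t := hder
  have h0 : IB δ ρ (fun z => Real.exp (0 * S z)) = IB δ ρ (fun _ => 1) := by
    congr 1
    funext z
    rw [zero_mul, Real.exp_zero]
  have h0' : IB δ ρ (fun z => S z * Real.exp (0 * S z)) = IB δ ρ S := by
    congr 1
    funext z
    rw [zero_mul, Real.exp_zero, mul_one]
  have hΛ0 : Λ 0 = 0 := by
    show Real.log (IB δ ρ (fun z => Real.exp (0 * S z)) / IB δ ρ (fun _ => 1)) = 0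
    rw [h0, div_self h1pos.ne', Real.log_one]
  have hΛ'0 : Λ' 0 = IB δ ρ S / IB δ ρ (fun _ => 1) := by
    show IB δ ρ (fun z => S z * Real.exp (0 * S z)) / IB δ ρ (fun z => Real.exp (0 * S z)) = _
    rw [h0, h0']
  have hkey : ∀ t, 0 < t → t ≤ 1 / 3 → t * Λ' t - Λ t ≤ t ^ 2 * (33 / 100 * Λ' t) := by
    intro t ht0 ht1
    have h2 := hEn t ht0.le ht1
    have h3 : En δ ρ (fun z => t * S z) =
        t * IB δ ρ (fun z => S z * Real.exp (t * S z)) -
          IB δ ρ (fun z => Real.exp (t * S z)) * Λ t := by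
      show IB δ ρ (fun z => t * S z * Real.exp (t * S z)) -
        IB δ ρ (fun z => Real.exp (t * S z)) * Real.log
          (IB δ ρ (fun z => Real.exp (t * S z)) / IB δ ρ (fun _ => 1)) = _
      congr 1
      unfold IB
      rw [← integral_const_mul]
      congr 1
      funext z
      ring
    have h4 : IB δ ρ (fun z => Real.exp (t * S z) * S z) =
        IB δ ρ (fun z => S z * Real.exp (t * S z)) := by
      congr 1
      funext z
      ring
    rw [h3, h4] at h2
    have hp := hpos t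
    have h5 : IB δ ρ (fun z => S z * Real.exp (t * S z)) =
        Λ' t * IB δ ρ (fun z => Real.exp (t * S z)) := by
      show _ = IB δ ρ (fun z => S z * Real.exp (t * S z)) /
        IB δ ρ (fun z => Real.exp (t * S z)) * IB δ ρ (fun z => Real.exp (t * S z))
      rw [div_mul_cancel₀ _ hp.ne']
    rw [h5] at h2
    have h6 : (t * Λ' t - Λ t) * IB δ ρ (fun z => Real.exp (t * S z)) ≤
        (t ^ 2 * (33 / 100 * Λ' t)) * IB δ ρ (fun z => Real.exp (t * S z)) := by
      linarith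
    exact le_of_mul_le_mul_right h6 hp
  have h7 := hCAL Λ Λ' (fun t => 33 / 100 * Λ t) (fun t => 33 / 100 * Λ' t) (1 / 3)
    (by norm_num) hd hΛ0 (fun t _ => (hd t).const_mul (33 / 100)) (by rw [hΛ0, mul_zero]) hkey
  have h8 : Real.log (IB δ ρ (fun z => Real.exp (1 / 3 * S z)) / IB δ ρ (fun _ => 1)) =
      Λ (1 / 3) := rfl
  rw [h8, ← hΛ'0]
  have h9 : Λ (1 / 3) ≤ 1 / 3 * (Λ' 0 + 33 / 100 * Λ (1 / 3)) := h7
  linarith

end Pool.Agent.Helper44.GN
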